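import Pool.Agent.W76.MO.Stmts
import Pool.Agent.W76.MO.Split

/-!
# MP_768c9c_nt under RH: a CMO function with partial sums `O(x^(-1/2-c))`

Completely multiplicative versions of the statements in `Pool/Agent/W76/MO/Defs.lean`.
Everything (`Env`, `Host`, `gu`, `gh`, `g`, `gs`, `w`, `HCount`, `GBounds`, `PairB`, ...) is taken from
there; only sums over squarefree rough `n` become sums over all rough `n`, and products over the
distinct primes become products over the prime factors with multiplicity.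
-/

set_option autoImplicit false

namespace Pool.Agent.Helper34.CM

open Finset Filter Topology
open scoped Classical
open Pool.Agent.W76.MO

/-! ### completely multiplicative functions from their values at primes -/

/-- `∏_{p^a ‖ n} G(p)^a` -/
noncomputable def cmp (G : ℕ → ℝ) (n : ℕ) : ℝ := (n.primeFactorsList.map G).prod

theorem cmp_one (G : ℕ → ℝ) : cmp G 1 = 1 := by simp [cmp]

theorem cmp_mul (G : ℕ → ℝ) {m n : ℕ} (hm : m ≠ 0) (hn : n ≠ 0) :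
    cmp G (m * n) = cmp G m * cmp G n := by
  unfold cmp
  rw [((Nat.perm_primeFactorsList_mul hm hn).map G).prod_eq, List.map_append, List.prod_append]

theorem cmp_prime (G : ℕ → ℝ) {p : ℕ} (hp : p.Prime) : cmp G p = G p := by
  simp [cmp, Nat.primeFactorsList_prime hp]

theorem cmp_nonneg {G : ℕ → ℝ} (n : ℕ) (h : ∀ p, p.Prime → p ∣ n → 0 ≤ G p) : 0 ≤ cmp G n := by
  unfold cmp
  apply List.prod_nonneg
  intro a ha
  obtain ⟨p, hp, rfl⟩ := List.mem_map.1 ha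
  exact h p (Nat.prime_of_mem_primeFactorsList hp) (Nat.dvd_of_mem_primeFactorsList hp)

/-- induction along the prime factors -/
theorem ind_primes {P : ℕ → Prop} (h1 : P 1)
    (h : ∀ p m : ℕ, p.Prime → m ≠ 0 → P m → P (p * m)) (n : ℕ) (hn : n ≠ 0) : P n := by
  induction n using induction_on_primes with
  | zero => exact absurd rfl hn
  | one => exact h1
  | prime_mul p a hp ih =>
    have ha : a ≠ 0 := fun h0 => hn (by rw [h0, mul_zero])
    exact h p a hp ha (ih ha)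

theorem cmp_mono {G G' : ℕ → ℝ} (n : ℕ) (hn : n ≠ 0) :
    (∀ p, p.Prime → p ∣ n → 0 ≤ G p ∧ G p ≤ G' p) → 0 ≤ cmp G n ∧ cmp G n ≤ cmp G' n := by
  refine ind_primes (P := fun n => (∀ p, p.Prime → p ∣ n → 0 ≤ G p ∧ G p ≤ G' p) →
    0 ≤ cmp G n ∧ cmp G n ≤ cmp G' n) ?_ ?_ n hn
  · intro _
    rw [cmp_one, cmp_one]
    exact ⟨zero_le_one, le_rfl⟩
  · intro p m hp hm ih h
    obtain ⟨h1, h2⟩ := ih fun q hq hqm => h q hq (hqm.mul_left p)
    obtain ⟨h3, h4⟩ := h p hp (dvd_mul_right p m)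
    rw [cmp_mul _ hp.ne_zero hm, cmp_mul _ hp.ne_zero hm, cmp_prime _ hp, cmp_prime _ hp]
    exact ⟨mul_nonneg h3 h1, mul_le_mul h4 h2 h1 (h3.trans h4)⟩

theorem cmp_congr {G G' : ℕ → ℝ} (n : ℕ) (h : ∀ p, p.Prime → p ∣ n → G p = G' p) :
    cmp G n = cmp G' n := by
  unfold cmp
  congr 1
  apply List.map_congr_left
  intro p hp
  exact h p (Nat.prime_of_mem_primeFactorsList hp) (Nat.dvd_of_mem_primeFactorsList hp)

/-- `∏_{p^a ‖ n} (p^θ)^a = n^θ` -/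
theorem cmp_rpow (θ : ℝ) (n : ℕ) (hn : n ≠ 0) : cmp (fun p => (p : ℝ) ^ θ) n = (n : ℝ) ^ θ := by
  refine ind_primes (P := fun n => cmp (fun p => (p : ℝ) ^ θ) n = (n : ℝ) ^ θ) ?_ ?_ n hn
  · rw [cmp_one, Nat.cast_one, Real.one_rpow]
  · intro p m hp hm ih
    rw [cmp_mul _ hp.ne_zero hm, cmp_prime _ hp, ih, Nat.cast_mul,
      Real.mul_rpow (Nat.cast_nonneg p) (Nat.cast_nonneg m)]

/-- the sum over the prime factors with multiplicity, one of them removed: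
`∑ u(p) ∏_{the others} v` -/
noncomputable def der (u v : ℕ → ℝ) (n : ℕ) : ℝ :=
  (n.primeFactorsList.map (fun p => u p * cmp v (n / p))).sum

theorem der_one (u v : ℕ → ℝ) : der u v 1 = 0 := by simp [der]

theorem der_mul (u v : ℕ → ℝ) {p m : ℕ} (hp : p.Prime) (hm : m ≠ 0) :
    der u v (p * m) = u p * cmp v m + v p * der u v m := by
  unfold der
  rw [((Nat.perm_primeFactorsList_mul hp.ne_zero hm).map _).sum_eq, List.map_append,
    List.sum_append, Nat.primeFactorsList_prime hp, List.map_singleton, List.sum_singleton,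
    Nat.mul_div_cancel_left m hp.pos]
  congr 1
  rw [← List.sum_map_mul_left]
  congr 1
  apply List.map_congr_left
  intro q hq
  have hqm := Nat.dvd_of_mem_primeFactorsList hq
  have hqp := Nat.prime_of_mem_primeFactorsList hq
  obtain ⟨t, rfl⟩ := hqm
  have ht : t ≠ 0 := fun h0 => hm (by rw [h0, mul_zero])
  have e1 : p * (q * t) / q = p * t := by
    rw [show p * (q * t) = q * (p * t) by ring, Nat.mul_div_cancel_left _ hqp.pos]
  rw [e1, Nat.mul_div_cancel_left _ hqp.pos, cmp_mul _ hp.ne_zero ht, cmp_prime _ hp]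
  ring

/-- the derivative as a sum over the distinct primes -/
theorem der_eq (u v : ℕ → ℝ) (n : ℕ) :
    der u v n = ∑ p ∈ n.primeFactors, (n.factorization p : ℝ) * (u p * cmp v (n / p)) := by
  unfold der
  rw [Finset.sum_list_map_count]
  refine Finset.sum_congr rfl fun p _ => ?_
  rw [Nat.primeFactorsList_count_eq, nsmul_eq_mul]

/-! ### the statements -/

/-- the `R`-rough elements of a cell -/
noncomputable def csm (E : Env) (R i k : ℕ) : Finset ℕ := (cell E.δ i k).filter (fun n => Rough R n)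

/-- `∏_{p^a ‖ n} (1 + 2 p g(p))^a` -/
noncomputable def E2m (E : Env) (j n : ℕ) : ℝ := cmp (fun p => 1 + 2 * (p * E.g j p)) n

/-- (ES) -/
def ESumM (E : Env) : Prop := ∀ η : ℝ, 0 < η → ∃ R₀ : ℕ, ∀ R : ℕ, R₀ ≤ R → ∃ J : ℕ, ∀ j : ℕ,
  J ≤ j → ∀ M : ℕ, ∑ t ∈ (Icc 2 M).filter (fun t => Rough R t),
    E2m E j t / t * (t : ℝ) ^ (-E.δ / 2) ≤ η

/-- (UP) (the primes `> 2^(3i/5)` occur only once) -/
def UPartM (E : Env) : Prop := ∃ R₀ : ℕ, ∀ R : ℕ, R₀ ≤ R → ∃ J : ℕ, ∀ j : ℕ, J ≤ j → ∀ i : ℕ,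
  j ≤ i → ∀ k : ℕ, k < nc E.δ i →
    ∑ n ∈ csm E R i k, ∑ p ∈ n.primeFactors.filter (fun p : ℕ => (2 : ℝ) ^ (3 / 5 * (i : ℝ)) < p),
      E.gu j p * (E2m E j (n / p) / ((n / p : ℕ) : ℝ)) ≤
        (if k ∈ E.Bad i then 0 else E.w i) + E.w i / 16

/-- (HP) with multiplicities -/
def HPartM (E : Env) : Prop := ∃ R₀ : ℕ, ∀ R : ℕ, R₀ ≤ R → ∃ J : ℕ, ∀ j : ℕ, J ≤ j → ∀ i : ℕ,
  j ≤ i → ∀ k : ℕ, k < nc E.δ i →
    ∑ n ∈ csm E R i k, ∑ q ∈ n.primeFactors.filter (fun q : ℕ => (2 : ℝ) ^ (1 / 20 * (i : ℝ)) < q),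
      (n.factorization q : ℝ) * (E.gh j q * (E2m E j (n / q) / ((n / q : ℕ) : ℝ))) ≤
        (if k ∈ E.Bad i then E.w i else 0) + E.w i / 16

/-- (SP) with multiplicities -/
def SPartM (E : Env) : Prop := ∃ J : ℕ, ∀ j : ℕ, J ≤ j → ∀ i : ℕ, j ≤ i → ∀ k : ℕ, k < nc E.δ i →
    ∑ n ∈ cell E.δ i k, (1 / (n : ℝ)) * cmp (fun p => 1 + 2 * (p * E.gs j i p)) n ≤ E.w i / 16

/-- the part of the host sum which comes from the bad cell `(i', k')` -/
noncomputable def HTm (E : Env) (j R i k i' k' : ℕ) (P : ℕ → ℕ → Prop) : ℝ :=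
  ∑ u ∈ ((E.Host j i' k') ×ˢ (csm E R i k)).filter (fun u : ℕ × ℕ =>
      lp u.1 ∣ u.2 ∧ (2 : ℝ) ^ (1 / 20 * (i : ℝ)) < lp u.1 ∧ P u.1 u.2),
    E.w i' / ((E.Host j i' k').card : ℝ) * ((u.1 : ℝ) / u.2) * E2m E j (u.2 / lp u.1)

/-- (H1) -/
def HP1M (E : Env) : Prop := ∃ J : ℕ, ∀ j : ℕ, J ≤ j → ∀ R i k : ℕ, j ≤ i → k < nc E.δ i →
  ∑ i' ∈ (range (2 * i + 3)).filter (fun i' : ℕ => j ≤ i' ∧ (i' : ℝ) < (1 - E.τ) * i),
    ∑ k' ∈ E.Bad i', HTm E j R i k i' k' (fun _ _ => True) ≤ E.w i / 2000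

/-- (HB) -/
def HPBM (E : Env) : Prop := ∃ J : ℕ, ∀ j : ℕ, J ≤ j → ∀ R i k : ℕ, j ≤ i → k < nc E.δ i →
  ∑ i' ∈ (range (2 * i + 3)).filter (fun i' : ℕ => j ≤ i' ∧ (1 - E.τ) * i ≤ (i' : ℝ)),
    ∑ k' ∈ E.Bad i', HTm E j R i k i' k' (fun a b => ¬ a ∣ b) ≤ E.w i / 64

/-- (HA) -/
def HPAM (E : Env) : Prop := ∃ R₀ : ℕ, ∀ R : ℕ, R₀ ≤ R → ∃ J : ℕ, ∀ j : ℕ, J ≤ j → ∀ i k : ℕ,
  j ≤ i → k < nc E.δ i →
  ∑ i' ∈ (range (2 * i + 3)).filter (fun i' : ℕ => j ≤ i' ∧ (1 - E.τ) * i ≤ (i' : ℝ)),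
    ∑ k' ∈ E.Bad i', HTm E j R i k i' k' (fun a b => a ∣ b) ≤
      (if k ∈ E.Bad i then E.w i else 0) + E.w i / 64

/-! ### assembly -/

/-- total mass at `n` -/
noncomputable def massm (E : Env) (j n : ℕ) : ℝ := (1 / (n : ℝ)) * cmp (fun p => 1 + p * E.g j p) n

/-- total mass of first order at `n` -/
noncomputable def taum (E : Env) (j n : ℕ) : ℝ :=
  (1 / (n : ℝ)) * der (fun p => p * E.g j p) (fun p => 1 + p * E.g j p) n

/-- the key inequality for the cells, packaged -/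
structure KeyM (E : Env) (R j : ℕ) : Prop where
  u0 : ∀ p, 0 ≤ E.gu j p
  h0 : ∀ p, 0 ≤ E.gh j p
  tau_cell : ∀ i k : ℕ, j ≤ i → k < nc E.δ i →
    ∑ n ∈ csm E R i k, taum E j n ≤ E.w i + E.w i / 4
  mass_cell : ∀ i k : ℕ, j ≤ i → k < nc E.δ i → ∑ n ∈ csm E R i k, massm E j n ≤ 4 * E.w i
  inv_cell : ∀ i k : ℕ, j ≤ i → k < nc E.δ i → ∑ n ∈ csm E R i k, 1 / (n : ℝ) ≤ E.w i / 4

/-- the key inequality for large parameters -/
def KeysM (E : Env) : Prop := ∃ R₀ : ℕ, ∀ R : ℕ, R₀ ≤ R → ∃ J : ℕ, ∀ j : ℕ, J ≤ j → KeyM E R j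

/-- the linear perturbation at `p` (copy of `Env.gz` of `W76/MO/Asm2.lean`) -/
noncomputable def gzm (E : Env) (j : ℕ) (z : ℕ × ℕ → ℝ) (p : ℕ) : ℝ :=
  (if p ≤ 2 ^ j then z (j - 1, 0) else z (Env.sc p, E.kx p)) * E.gu j p +
  ∑ i ∈ (range (2 * Nat.log 2 p + 3)).filter (fun i => j ≤ i), ∑ k ∈ E.Bad i,
    ∑ n ∈ (E.Host j i k).filter (fun n => lp n = p),
      z (i, k) * (E.w i / ((E.Host j i k).card : ℝ) * ((n : ℝ) / p)) *
        (ArithmeticFunction.moebius (n / p) : ℝ)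

/-- the function -/
noncomputable def fzm (E : Env) (j : ℕ) (z : ℕ × ℕ → ℝ) (n : ℕ) : ℝ :=
  cmp (fun p => gzm E j z p - 1 / (p : ℝ)) n

/-- rough numbers up to `2^j` -/
noncomputable def A0m (R j : ℕ) : Finset ℕ := (Icc 1 (2 ^ j)).filter (fun n => Rough R n)

/-- (FST) the first block -/
def FstM (E : Env) : Prop := ∀ R : ℕ, ∃ J : ℕ, 1 ≤ J ∧ ∀ j : ℕ, J ≤ j →
    (E.UB j).Nonempty ∧ (∀ p ∈ E.UB j, p.Prime) ∧ ∑ n ∈ A0m R j, taum E j n ≤ 8 * j + 8 * j / 4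

/-- (SYS) solution of the system of equations -/
def SysM (E : Env) : Prop := ∃ (R j : ℕ) (z : ℕ × ℕ → ℝ), (∀ x, |z x| ≤ 1) ∧ 2 ≤ R ∧ 10 ≤ j ∧
      KeyM E R j ∧ (∀ p : ℕ, p.Prime → E.g j p ≤ 1 / 4) ∧
      ∑ n ∈ A0m R j, fzm E j z n = 0 ∧
      ∀ i k : ℕ, j ≤ i → k < nc E.δ i → ∑ n ∈ csm E R i k, fzm E j z n = 0

/-- the conclusion: some CMO function has `|S_f(x)| ≤ C x^(-1/2-c)` -/
def ConclM : Prop := ∃ f : ℕ → ℂ, f 1 = 1 ∧ (∀ m n : ℕ, 0 < m → 0 < n → f (m * n) = f m * f n) ∧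
  Tendsto (fun N : ℕ => ∑ n ∈ Icc 1 N, f n) atTop (𝓝 0) ∧ ∃ c C : ℝ, 0 < c ∧ 0 < C ∧
  ∀ x : ℝ, 1 ≤ x → ‖partialSum f x‖ ≤ C * x ^ (-(1 / 2 : ℝ) - c)

/-! ### the tasks

Each of them is an adaptation of an existing file of the starting library (which contains the proof of
the version for squarefree numbers and products over distinct primes); copy that file to your own
folder, replace `E.E2` by `E2m E`, `E.cs` by `csm E`, `E.HT` by `HTm E`, remove `Squarefree`, and repair.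
The old theorems `Pool.Agent.W501.MO.hc : T_HC`, `Pool.Agent.W683.MO.gb : T_GB`,
`Pool.Agent.W1.MO.pb : T_PB` are used unchanged. -/

/-- task ES: adapt `Pool/Agent/W280/MO/ES.lean` (180 lines).  For rough `t`, `E2m(t)/t t^(-δ/2)` is
`cmp a t` with `a(p) = (1 + 2 p g(p)) p^(-1-δ/2) ≤ 1/2` (for `p ≥ R`, by `GBounds`:
`1 + 2 p g(p) ≤ 2^(δ/2 sc p)` or `≤ p^(9δ)` or `1`; `g = gu + gh` and `gh ≠ 0` implies `¬ U`), so the sum
over all rough `t` in `[2, M]` is at most `∏_{R ≤ p ≤ M} (1 + 2 a(p)) - 1` (geometric series), and the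
old proof gives `∑ a(p) ≤ 2 ε`. -/
def T_ESM : Prop := ∀ E : Env, E.GBounds → ESumM E

/-- task UP: adapt the last part (`upart`) of `Pool/Agent/W596/MO/UP.lean`.  (helper34 does it.) -/
def T_UPM : Prop := ∀ E : Env, E.GBounds → ESumM E → UPartM E

/-- task SP: adapt `Pool/Agent/W683/MO/SP.lean`, `SP1.lean`.  (A) For every `n ≤ 2^(i+1)`:
`∏_{p^a ‖ n, p ≤ 2^(3i/5)} (1 + 2 p gu(p))^a ≤ 2^(δi/2)/i^50`: `prod_large` of `SP1.lean` is stated for an
arbitrary index type, apply it to the finset of pairs `(p, l)`, `l < v_p(n)` (or to `Fin` of the list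
of prime factors).  (B) `∑_{n in cell} ∏_{q^a ‖ n, q ≤ 2^(i/20)} (1 + 2 q gh(q))^a ≤ 5 hh` (or any
constant instead of `5`, up to `1000`, since the last step has room `5/i^10 ≤ 1/16`): replace subsets
`s` of `Q` by divisors `d` of `n` composed of primes of `Q`: `(1+b)^a = 1 + ∑_{1≤l≤a} b (1+b)^(l-1)`,
so the product is `∑_{d | n} c(d)` with `c` multiplicative, `c(q^l) = b(1+b)^(l-1)`,
`∑_l c(q^l) q^(-l) ≤ 2 b/q`, `1 + b ≤ q^(9δ)`; if the `Q`-part of `n` is `> Z1` then it has a divisor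
in `(Z1, Z2]` and the product is `≤ n^(9δ)`. -/
def T_SPM : Prop := ∀ E : Env, E.GBounds → SPartM E

/-- task H1: adapt `Pool/Agent/W640/MO/H1.lean`.  (helper34 does it.) -/
def T_H1M : Prop := ∀ E : Env, E.HCount → E.GBounds → HP1M E

/-- task HB: adapt `Pool/Agent/W356/MO/HB.lean`.  (helper34 does it.) -/
def T_HBM : Prop := ∀ E : Env, E.HCount → E.GBounds → Env.PairB E.τ E.δ → HPBM E

/-- task HA: adapt `Pool/Agent/W326/MO/HA1.lean`, `HA3.lean` (`HA2` can be imported if it does not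
mention `E2`, `cs`, `HT`).  The squarefreeness of `n` was only used for the coprimality of `n₁` and
`n / n₁`, which is not needed for the completely multiplicative `E2m`. -/
def T_HAM : Prop := ∀ E : Env, E.HCount → E.GBounds → ESumM E → HPAM E

/-- task HX: adapt `Pool/Agent/W356/MO/HX.lean`.  The multiplicity `v_q(n)`: for hosts `n₁` of a cell of
scale `i' ≥ (1-τ) i` one has `q = lp n₁ ≥ 2^((1/2+τ) i')`, so `q^2 > 2^(i+1) ≥ n` and `v_q(n) = 1`; for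
the other scales `v_q(n) ≤ 20` because `q > 2^(i/20)` (take `j ≥ 21`), and `20/2000 + 2/64 ≤ 1/16`. -/
def T_HXM : Prop := ∀ E : Env, E.GBounds → HP1M E → HPAM E → HPBM E → HPartM E

/-- task KEY: adapt `Pool/Agent/W76/MO/Asm1.lean` and `split_all` of `Split.lean` (replace the
induction over the finset of primes by `ind_primes`, using `cmp_mul`, `der_mul`).  With
`gl` of `Asm1.lean` (import it) `(1/n) der (p gl) (1 + 2 p g) n = ∑_{p | n} v_p(n) gl(p)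
E2m(n/p)/(n/p)` by `der_eq`, which is the sum of the terms of `UPartM` (for `p > 2^(3i/5)`,
`n ≤ 2^(i+1)` the multiplicity is `1`; `j ≥ 10`) and `HPartM`. -/
def T_KEYM : Prop := ∀ E : Env, E.GBounds → UPartM E → HPartM E → SPartM E → KeysM E

/-- task FST: adapt `tau_first` of `Pool/Agent/W76/MO/Asm4.lean`.  For `n ≤ 2^j` at most one prime
factor (with multiplicity) has `g ≠ 0`, except that `n = p^2 = 2^j`, which is impossible for
`j ≥ 3`. -/
def T_FSTM : Prop := ∀ E : Env, E.GBounds → FstM E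

/-- task SYS: adapt `Pool/Agent/W76/MO/Asm3.lean` (`fz_bound`, `fz_zero`) and `Asm5.lean` (`system`);
`perturb` of `Split.lean` by `ind_primes`.  `gzm = Env.gz` by `rfl`; at squarefree `n` (hosts, primes)
`fzm = Env.fz` and `taum = Env.tau`, so `host_lip`, `prime_lip` of `Asm3.lean` can be used. -/
def T_SYSM : Prop := ∀ E : Env, E.GBounds → E.HCount → FstM E → KeysM E → SysM E

/-- task SOL: adapt `Pool/Agent/W76/MO/Asm6.lean`.  The function is `fzm E j z n` at rough `n` and `0`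
at the other `n`. -/
def T_SOLM : Prop := ∀ E : Env, SysM E → ConclM

end Pool.Agent.Helper34.CM
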