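import Pool.Agent.Helper34.CM.Fin

/-!
# MP_768c9c_nt: CMO functions whose partial sums decay faster than `x^(-1/2)`

(A) (unconditional) If for some sufficiently small `δ > 0` and some `c > 0` and all large `i` at most
`2^(3δi)` of the `≈ 2^((1/2+δ)i)` consecutive intervals of length `2^⌊(1/2-δ)i⌋` which partition
`(2^i, 2^(i+1)]` contain fewer than `c 2^⌊(1/2-δ)i⌋ / i` primes, then there is a real valued CMO function
`f` with `|f(n)| ≤ n^(-1+9δ)` and `S_f(x) = O(x^(-1/2-δ/2))`, so that Q1 is false.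

(B) The Riemann hypothesis implies the hypothesis of (A) for all small `δ`.  So under RH there are for
every `ε > 0` a real valued CMO function `f` with `|f(n)| ≤ n^(-1+ε)` for all `n`, and `c > 0`, such
that `S_f(x) = O(x^(-1/2-c))`; Q1 is false under RH.

(C) Hence if Q1 is true, then RH is false, and there are infinitely many scales `i` with more than
`2^(3δi)` short intervals with few primes.

The function is `f(p) = -1/p` at most primes `p ≥ R`, `0` at the small primes, with a perturbation at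
a sparse set of control primes (and at the large prime factors of certain numbers in the bad
intervals) which is found by a contraction in `ℓ^∞` of the set of all short intervals: every interval
has `∑ f(n) = 0`.  The proof is the completely multiplicative version of the one of the starting
result `MP_a187e6_nt/BeyondSquareRoot` (multiplicative functions supported by squarefree numbers).
-/

set_option autoImplicit false

namespace Pool.Agent.Helper34.CM.BeyondSquareRoot768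

open Filter Topology Finset Asymptotics

/-- `f` (only its values at `n ≥ 1` matter) is a CMO function -/
structure IsCMO (f : ℕ → ℂ) : Prop where
  one : f 1 = 1
  mul : ∀ m n : ℕ, 1 ≤ m → 1 ≤ n → f (m * n) = f m * f n
  sum_zero : Tendsto (fun N : ℕ => ∑ n ∈ Icc 1 N, f n) atTop (𝓝 0)

/-- the partial sum `S_f(x) = ∑_{n ≤ x} f(n)` -/
noncomputable def partialSum (f : ℕ → ℂ) (x : ℝ) : ℂ := ∑ n ∈ Icc 1 ⌊x⌋₊, f n

/-- Q1: `S_f(x)` is not `o(x^(-1/2))` for any CMO function `f` -/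
def Q1 : Prop := ∀ f : ℕ → ℂ, IsCMO f → ¬ (partialSum f) =o[atTop] (fun x : ℝ => x ^ (-(1 / 2) : ℝ))

/-- the length of the intervals of scale `i` -/
noncomputable def len (δ : ℝ) (i : ℕ) : ℕ := 2 ^ ⌊(1 / 2 - δ) * i⌋₊

open scoped Classical in
/-- the number of those of the intervals `(2^i + k len, 2^i + (k+1) len]`, `k < 2^i / len`, which
contain fewer than `c len / i` primes -/
noncomputable def poor (c δ : ℝ) (i : ℕ) : ℕ :=
  ((range (2 ^ i / len δ i)).filter (fun k => (((Ioc (2 ^ i + k * len δ i)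
    (2 ^ i + (k + 1) * len δ i)).filter Nat.Prime).card : ℝ) < c * len δ i / i)).card

lemma few {c δ : ℝ} (h : ∀ᶠ i : ℕ in atTop, (poor c δ i : ℝ) ≤ 2 ^ (3 * δ * i)) :
    Pool.Agent.Helper34.CM.FewFor c δ := by
  obtain ⟨i₀, hi₀⟩ := eventually_atTop.1 h
  exact ⟨max i₀ 1, le_max_right _ _, fun i hi => hi₀ i ((le_max_left _ _).trans hi)⟩

lemma few' {c δ : ℝ} (h : Pool.Agent.Helper34.CM.FewFor c δ) :
    ∀ᶠ i : ℕ in atTop, (poor c δ i : ℝ) ≤ 2 ^ (3 * δ * i) := by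
  obtain ⟨i₀, -, hi₀⟩ := h
  exact eventually_atTop.2 ⟨i₀, hi₀⟩

lemma finish {δ C : ℝ} (hδ : 0 < δ) (hδ1 : δ ≤ 1) (hC : 0 < C) {f : ℕ → ℝ} (h1 : f 1 = 1)
    (h2 : ∀ m n : ℕ, 1 ≤ m → 1 ≤ n → f (m * n) = f m * f n)
    (hb : ∀ N : ℕ, 1 ≤ N → |∑ n ∈ Icc 1 N, f n| ≤ C * (N : ℝ) ^ (-(1 / 2 : ℝ) - δ / 2)) :
    IsCMO (fun n => (f n : ℂ)) ∧
      ∀ x : ℝ, 1 ≤ x → ‖partialSum (fun n => (f n : ℂ)) x‖ ≤ 2 * C * x ^ (-(1 / 2 : ℝ) - δ / 2) := by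
  have hsum : ∀ N : ℕ, ∑ n ∈ Icc 1 N, ((f n : ℝ) : ℂ) = ((∑ n ∈ Icc 1 N, f n : ℝ) : ℂ) := by
    intro N
    push_cast
    rfl
  refine ⟨⟨by simp [h1], fun m n hm hn => ?_, ?_⟩, ?_⟩
  · show ((f (m * n) : ℝ) : ℂ) = (f m : ℂ) * (f n : ℂ)
    rw [h2 m n hm hn, Complex.ofReal_mul]
  · have h3 : Tendsto (fun N : ℕ => ∑ n ∈ Icc 1 N, f n) atTop (𝓝 0) := by
      have h4 : Tendsto (fun N : ℕ => C * (N : ℝ) ^ (-(1 / 2 : ℝ) - δ / 2)) atTop (𝓝 0) := by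
        have h5 : Tendsto (fun x : ℝ => x ^ (-(1 / 2 + δ / 2))) atTop (𝓝 0) :=
          tendsto_rpow_neg_atTop (by positivity)
        have h6 := (h5.comp tendsto_natCast_atTop_atTop).const_mul C
        rw [mul_zero] at h6
        refine h6.congr fun N => ?_
        simp only [Function.comp]
        congr 2
        ring
      rw [tendsto_zero_iff_abs_tendsto_zero]
      refine squeeze_zero' (Eventually.of_forall fun N => abs_nonneg _) ?_ h4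
      filter_upwards [eventually_ge_atTop 1] with N hN
      exact hb N hN
    have h5 : Tendsto (fun N : ℕ => ((∑ n ∈ Icc 1 N, f n : ℝ) : ℂ)) atTop (𝓝 ((0 : ℝ) : ℂ)) :=
      (Complex.continuous_ofReal.tendsto 0).comp h3
    rw [Complex.ofReal_zero] at h5
    exact h5.congr fun N => (hsum N).symm
  · intro x hx
    have hfl : 1 ≤ ⌊x⌋₊ := by rwa [Nat.one_le_floor_iff]
    have e1 : partialSum (fun n => (f n : ℂ)) x = ((∑ n ∈ Icc 1 ⌊x⌋₊, f n : ℝ) : ℂ) := hsum _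
    rw [e1, Complex.norm_real, Real.norm_eq_abs]
    have hN0 : (0 : ℝ) < ⌊x⌋₊ := by exact_mod_cast hfl
    have h3 : x / 2 ≤ ⌊x⌋₊ := by
      have := Nat.lt_floor_add_one x
      have h4 : (1 : ℝ) ≤ ⌊x⌋₊ := by exact_mod_cast hfl
      linarith
    have h5 : (⌊x⌋₊ : ℝ) ^ (-(1 / 2 : ℝ) - δ / 2) ≤ (x / 2) ^ (-(1 / 2 : ℝ) - δ / 2) :=
      Real.rpow_le_rpow_of_nonpos (by linarith) h3 (by linarith)
    have h6 : (x / 2) ^ (-(1 / 2 : ℝ) - δ / 2) ≤ 2 * x ^ (-(1 / 2 : ℝ) - δ / 2) := by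
      rw [Real.div_rpow (by linarith) (by norm_num), div_eq_mul_inv, ← Real.rpow_neg (by norm_num),
        mul_comm]
      apply mul_le_mul_of_nonneg_right _ (by positivity)
      calc (2 : ℝ) ^ (-(-(1 / 2 : ℝ) - δ / 2)) ≤ (2 : ℝ) ^ (1 : ℝ) := by
            apply Real.rpow_le_rpow_of_exponent_le (by norm_num)
            linarith
        _ = 2 := Real.rpow_one 2
    calc |∑ n ∈ Icc 1 ⌊x⌋₊, f n| ≤ C * (⌊x⌋₊ : ℝ) ^ (-(1 / 2 : ℝ) - δ / 2) := hb _ hfl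
      _ ≤ C * (2 * x ^ (-(1 / 2 : ℝ) - δ / 2)) := mul_le_mul_of_nonneg_left (h5.trans h6) hC.le
      _ = 2 * C * x ^ (-(1 / 2 : ℝ) - δ / 2) := by ring

lemma isLittleO_of_bound {f : ℕ → ℂ} {c C : ℝ} (hc : 0 < c)
    (h : ∀ x : ℝ, 1 ≤ x → ‖partialSum f x‖ ≤ C * x ^ (-(1 / 2 : ℝ) - c)) :
    (partialSum f) =o[atTop] (fun x : ℝ => x ^ (-(1 / 2) : ℝ)) := by
  have e1 : (partialSum f) =O[atTop] (fun x : ℝ => x ^ (-(1 / 2 : ℝ) - c)) := by
    refine IsBigO.of_bound C ?_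
    filter_upwards [eventually_ge_atTop (1 : ℝ)] with x hx
    rw [Real.norm_of_nonneg (by positivity)]
    exact h x hx
  refine e1.trans_isLittleO ?_
  rw [isLittleO_iff_tendsto']
  · have h5 : Tendsto (fun x : ℝ => x ^ (-c)) atTop (𝓝 0) := tendsto_rpow_neg_atTop hc
    refine h5.congr' ?_
    filter_upwards [eventually_gt_atTop (0 : ℝ)] with x hx
    rw [← Real.rpow_sub hx]
    congr 1
    ring
  · filter_upwards [eventually_gt_atTop (0 : ℝ)] with x hx h0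
    exact absurd h0 (by positivity)

theorem result :
    -- (A)
    (∃ δ₀ : ℝ, 0 < δ₀ ∧ ∀ δ : ℝ, 0 < δ → δ ≤ δ₀ → ∀ c : ℝ, 0 < c →
      (∀ᶠ i : ℕ in atTop, (poor c δ i : ℝ) ≤ 2 ^ (3 * δ * i)) →
      ∃ f : ℕ → ℝ, IsCMO (fun n => (f n : ℂ)) ∧ (∀ n : ℕ, 1 ≤ n → |f n| ≤ (n : ℝ) ^ (-1 + 9 * δ)) ∧
        ∃ C : ℝ, ∀ x : ℝ, 1 ≤ x →
          ‖partialSum (fun n => (f n : ℂ)) x‖ ≤ C * x ^ (-(1 / 2 : ℝ) - δ / 2)) ∧
    -- (B)
    (RiemannHypothesis → ∀ ε : ℝ, 0 < ε →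
      ∃ f : ℕ → ℝ, IsCMO (fun n => (f n : ℂ)) ∧ (∀ n : ℕ, 1 ≤ n → |f n| ≤ (n : ℝ) ^ (-1 + ε)) ∧
        (∃ c C : ℝ, 0 < c ∧ ∀ x : ℝ, 1 ≤ x →
          ‖partialSum (fun n => (f n : ℂ)) x‖ ≤ C * x ^ (-(1 / 2 : ℝ) - c)) ∧
        (partialSum (fun n => (f n : ℂ))) =o[atTop] (fun x : ℝ => x ^ (-(1 / 2) : ℝ))) ∧
    -- (C)
    (Q1 → ¬ RiemannHypothesis ∧ ∃ δ₀ : ℝ, 0 < δ₀ ∧ ∀ δ : ℝ, 0 < δ → δ ≤ δ₀ → ∀ c : ℝ, 0 < c →
      ∃ᶠ i : ℕ in atTop, (2 : ℝ) ^ (3 * δ * i) < poor c δ i) := by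
  obtain ⟨δ₁, hδ₁, hE⟩ := Pool.Agent.Helper34.CM.env_exists
  have key : ∀ δ : ℝ, 0 < δ → δ ≤ min δ₁ 1 → ∀ c : ℝ, 0 < c →
      (∀ᶠ i : ℕ in atTop, (poor c δ i : ℝ) ≤ 2 ^ (3 * δ * i)) →
      ∃ f : ℕ → ℝ, IsCMO (fun n => (f n : ℂ)) ∧ (∀ n : ℕ, 1 ≤ n → |f n| ≤ (n : ℝ) ^ (-1 + 9 * δ)) ∧
        ∃ C : ℝ, ∀ x : ℝ, 1 ≤ x →
          ‖partialSum (fun n => (f n : ℂ)) x‖ ≤ C * x ^ (-(1 / 2 : ℝ) - δ / 2) := by
    intro δ hδ hδ' c hc h
    obtain ⟨E, rfl, hP⟩ := hE δ hδ (hδ'.trans (min_le_left _ _)) c hc (few h)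
    obtain ⟨f, h1, h2, h3, C, hC, hb⟩ := Pool.Agent.Helper34.CM.conclB E hP
    obtain ⟨h4, h5⟩ := finish hδ (hδ'.trans (min_le_right _ _)) hC h1 h2 hb
    exact ⟨f, h4, h3, 2 * C, h5⟩
  have hRHkey : RiemannHypothesis → ∀ ε : ℝ, 0 < ε →
      ∃ f : ℕ → ℝ, IsCMO (fun n => (f n : ℂ)) ∧ (∀ n : ℕ, 1 ≤ n → |f n| ≤ (n : ℝ) ^ (-1 + ε)) ∧
        (∃ c C : ℝ, 0 < c ∧ ∀ x : ℝ, 1 ≤ x →
          ‖partialSum (fun n => (f n : ℂ)) x‖ ≤ C * x ^ (-(1 / 2 : ℝ) - c)) ∧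
        (partialSum (fun n => (f n : ℂ))) =o[atTop] (fun x : ℝ => x ^ (-(1 / 2) : ℝ)) := by
    intro hRH ε hε
    obtain ⟨c, hc, hfew⟩ := Pool.Agent.Helper34.CM.few_of_RH hRH
    set δ := min (min δ₁ 1) (min (ε / 9) (1 / 8)) with hδd
    have hδ : 0 < δ := lt_min (lt_min hδ₁ one_pos) (lt_min (by positivity) (by norm_num))
    have hδε : δ ≤ ε / 9 := (min_le_right _ _).trans (min_le_left _ _)
    have hδ4 : δ < 1 / 4 := lt_of_le_of_lt ((min_le_right _ _).trans (min_le_right _ _)) (by norm_num)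
    obtain ⟨f, h1, h2, C, h3⟩ := key δ hδ (min_le_left _ _) c hc (few' (hfew δ hδ hδ4))
    refine ⟨f, h1, fun n hn => (h2 n hn).trans ?_, ⟨δ / 2, C, by positivity, h3⟩,
      isLittleO_of_bound (by positivity) h3⟩
    apply Real.rpow_le_rpow_of_exponent_le
    · exact_mod_cast hn
    · linarith
  refine ⟨⟨min δ₁ 1, lt_min hδ₁ one_pos, key⟩, hRHkey, fun hQ => ⟨fun hRH => ?_, min δ₁ 1,
    lt_min hδ₁ one_pos, fun δ hδ hδ' c hc => ?_⟩⟩
  · obtain ⟨f, h1, -, -, h2⟩ := hRHkey hRH 1 one_pos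
    exact hQ _ h1 h2
  · by_contra hcon
    rw [not_frequently] at hcon
    obtain ⟨f, h1, -, C, h2⟩ := key δ hδ hδ' c hc (hcon.mono fun i hi => not_lt.1 hi)
    exact hQ _ h1 (isLittleO_of_bound (by positivity) h2)

end Pool.Agent.Helper34.CM.BeyondSquareRoot768
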