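import Pool.Agent.Helper34.CM.Stm
import Pool.Agent.W377.MO.US

/-!
# The control primes, from a bound for the number of cells with few primes
-/

set_option autoImplicit false

namespace Pool.Agent.Helper34.CM

open Finset Filter Topology
open scoped Classical
open Pool.Agent.W76.MO
open Pool.Agent.W377.MOUS

/-- at most `2^(3 δ i)` cells of scale `i` contain fewer than `c h / i` primes -/
def FewFor (c δ : ℝ) : Prop := ∃ i₀ : ℕ, 1 ≤ i₀ ∧ ∀ i : ℕ, i₀ ≤ i →
    (((range (nc δ i)).filter (fun k =>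
      (((cell δ i k).filter Nat.Prime).card : ℝ) < c * hh δ i / i)).card : ℝ) ≤
        (2 : ℝ) ^ (3 * δ * i)

/-- `isU` from a bound for the number of cells with few primes -/
theorem usH (hB : BTR) (τ δ : ℝ) (hτ : 0 < τ) (hτ' : τ ≤ 1 / 100) (hδ : 0 < δ)
    (hδ' : δ ≤ τ / 1000) (c : ℝ) (hc : 0 < c) (hF : FewFor c δ) :
    ∃ (isU : ℕ → Prop) (CU cU : ℝ) (i₁ : ℕ), 1 ≤ CU ∧ 0 < cU ∧ 1 ≤ i₁ ∧ (∀ p, isU p → p.Prime) ∧
  (∀ i : ℕ, i₁ ≤ i → ∀ a L : ℕ, 2 ^ i ≤ a → a + L ≤ 2 ^ (i + 1) →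
    (2 : ℝ) ^ (τ / 4 * i) ≤ L → (((Ioc a (a + L)).filter isU).card : ℝ) ≤ CU * L / (i : ℝ) ^ 4) ∧
  (∀ i : ℕ, i₁ ≤ i → (((range (nc δ i)).filter (fun k =>
    (((cell δ i k).filter isU).card : ℝ) < cU * hh δ i / (i : ℝ) ^ 4)).card : ℝ) ≤
      (2 : ℝ) ^ (3 * δ * i)) := by
  have hδ4 : δ < 1 / 4 := by linarith
  obtain ⟨i₀, hi₀, hF⟩ := hF
  obtain ⟨C, hC, i₂, hi₂, hB⟩ := hB (1 / 2) (τ / 16) (by norm_num) (by linarith)
  obtain ⟨i₃, hi₃⟩ := large (τ / 8) (by linarith) 4 2
  obtain ⟨i₄, hi₄⟩ := large (τ / 16) (by linarith) 0 2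
  obtain ⟨i₅, hi₅⟩ := exists_nat_ge (4 / c)
  have key : ∀ i : ℕ, i₃ + i₄ + 1 ≤ i → i ^ 4 ≤ ss τ i ∧ (2 : ℝ) ^ (τ / 16 * i) ≤ ss τ i ∧
      ss τ i ∣ 2 ^ i ∧ ss τ i ∣ hh δ i := by
    intro i hi
    have h1 := hi₃ i (by omega)
    have h2 := hi₄ i (by omega)
    have h3 := ss_lower τ i
    refine ⟨?_, ?_, ?_, ?_⟩
    · have : (i : ℝ) ^ 4 ≤ ss τ i := by linarith
      exact_mod_cast this
    · have h4 : (2 : ℝ) ^ (τ / 8 * i) = (2 : ℝ) ^ (τ / 16 * i) * (2 : ℝ) ^ (τ / 16 * i) := by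
        rw [← Real.rpow_add (by norm_num)]
        congr 1
        ring
      have h5 : (0 : ℝ) < (2 : ℝ) ^ (τ / 16 * i) := by positivity
      rw [pow_zero, mul_one] at h2
      nlinarith
    · unfold ss
      apply pow_dvd_pow
      apply Nat.floor_le_of_le
      have : (0 : ℝ) ≤ i := Nat.cast_nonneg _
      nlinarith
    · unfold ss hh
      apply pow_dvd_pow
      apply Nat.floor_le_floor
      have : (0 : ℝ) ≤ i := Nat.cast_nonneg _
      nlinarith
  refine ⟨isU τ, 6, c / (2 * C), i₀ + i₂ + i₃ + i₄ + i₅ + 1, by norm_num, by positivity, by omega,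
    isU_prime τ, ?_, ?_⟩
  · intro i hi a L ha haL hL
    obtain ⟨k1, k2, k3, k4⟩ := key i (by omega)
    refine up_bound τ i a L (by omega) k1 k3 ha haL ?_
    have h1 := ss_upper τ hτ i
    have h2 : (2 : ℝ) ^ (τ / 8 * i) ≤ (2 : ℝ) ^ (τ / 4 * i) := by
      apply Real.rpow_le_rpow_of_exponent_le (by norm_num)
      have : (0 : ℝ) ≤ i := Nat.cast_nonneg _
      nlinarith
    have : (ss τ i : ℝ) ≤ L := by linarith
    exact_mod_cast this
  · intro i hi
    obtain ⟨k1, k2, k3, k4⟩ := key i (by omega)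
    have hF' := hF i (by omega)
    have e1 : (2 * δ + δ) * (i : ℝ) = 3 * δ * i := by ring
    refine le_trans ?_ hF'
    have hi1 : 1 ≤ i := by omega
    have hiR : (0 : ℝ) < i := by exact_mod_cast hi1
    have hi1R : (1 : ℝ) ≤ i := by exact_mod_cast hi1
    obtain ⟨r, hr⟩ := k4
    set s := ss τ i with hsdef
    have hs0 : 0 < s := ss_pos τ i
    have hsR : (0 : ℝ) < s := by exact_mod_cast hs0
    have hh0 : 0 < hh δ i := by unfold hh; positivity
    have hhR : (0 : ℝ) < hh δ i := by exact_mod_cast hh0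
    have hrR : (hh δ i : ℝ) = s * r := by exact_mod_cast hr
    norm_cast
    apply Finset.card_le_card
    intro k hk
    rw [Finset.mem_filter] at hk ⊢
    refine ⟨hk.1, ?_⟩
    by_contra hcon
    rw [not_lt] at hcon
    have hk1 : k < nc δ i := Finset.mem_range.mp hk.1
    have hkb : (k + 1) * hh δ i ≤ 2 ^ i := by
      calc (k + 1) * hh δ i ≤ nc δ i * hh δ i := Nat.mul_le_mul_right _ hk1
        _ ≤ 2 ^ i := Nat.div_mul_le_self _ _
    have hcell : cell δ i k = Ioc (2 ^ i + (k * r) * s) (2 ^ i + ((k + 1) * r) * s) := by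
      unfold cell
      rw [hr]
      congr 1 <;> ring
    have hle : k * r ≤ (k + 1) * r := Nat.mul_le_mul_right _ (Nat.le_succ k)
    have hP := cnt_split Nat.Prime (2 ^ i) s (k * r) ((k + 1) * r) hle
    have hU := cnt_split (isU τ) (2 ^ i) s (k * r) ((k + 1) * r) hle
    rw [← hcell] at hP hU
    have hN1 := NN_lower τ hi1
    have hN2 := NN_upper τ hi1 k1
    rw [← hsdef] at hN1 hN2
    have hNpos : (0 : ℝ) < NN τ i := by
      unfold NN
      positivity
    have hterm : ∀ l ∈ Ico (k * r) ((k + 1) * r),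
        (((Ioc (2 ^ i + l * s) (2 ^ i + (l + 1) * s)).filter Nat.Prime).card : ℝ) ≤
          (C * (i : ℝ) ^ 3) *
            (((Ioc (2 ^ i + l * s) (2 ^ i + (l + 1) * s)).filter (isU τ)).card : ℝ) + NN τ i := by
      intro l hl
      rw [Finset.mem_Ico] at hl
      have hl2 : (l + 1) * s ≤ 2 ^ i := by
        calc (l + 1) * s ≤ ((k + 1) * r) * s := Nat.mul_le_mul_right _ hl.2
          _ = (k + 1) * hh δ i := by rw [hr]; ring
          _ ≤ 2 ^ i := hkb
      have h1 : (Ioc (2 ^ i + l * s) (2 ^ i + (l + 1) * s)).filter (isU τ) =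
          ch (NN τ i) (sb s i l) := filter_isU τ hl2
      rw [h1]
      by_cases hrich : NN τ i ≤ ((sb s i l).filter Nat.Prime).card
      · rw [ch_card_eq _ _ hrich]
        have h2 : (2 : ℝ) ^ (τ / 16 * (i : ℝ)) ≤ s := k2
        have h3 := hB i (by omega) (2 ^ i + l * s) s h2
        have h4 : (((Ioc (2 ^ i + l * s) (2 ^ i + (l + 1) * s)).filter Nat.Prime).card : ℝ) ≤
            C * s / i := by
          refine le_trans ?_ h3
          norm_cast
          have h5 : 2 ^ i + (l + 1) * s = 2 ^ i + l * s + s := by ring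
          rw [h5]
          apply Finset.card_le_card
          intro p hp
          rw [Finset.mem_filter] at hp ⊢
          refine ⟨hp.1, ?_⟩
          intro q hq hqp
          have h6 : q = p := (Nat.prime_dvd_prime_iff_eq hq hp.2).mp hqp
          rw [h6]
          have h7 : 2 ^ i < p := by
            have := (Finset.mem_Ioc.mp hp.1).1
            omega
          have h8 : (2 : ℝ) ^ i < p := by exact_mod_cast h7
          have h9 : (2 : ℝ) ^ (1 / 2 * (i : ℝ)) ≤ (2 : ℝ) ^ i := by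
            rw [← Real.rpow_natCast]
            apply Real.rpow_le_rpow_of_exponent_le (by norm_num)
            linarith
          linarith
        have h5 : C * s / i ≤ C * (i : ℝ) ^ 3 * (NN τ i : ℝ) := by
          have h6 : C * (i : ℝ) ^ 3 * ((s : ℝ) / (i : ℝ) ^ 4) = C * s / i := by
            field_simp
          rw [← h6]
          apply mul_le_mul_of_nonneg_left hN1 (by positivity)
        linarith
      · rw [not_le] at hrich
        have h2 : (((sb s i l).filter Nat.Prime).card : ℝ) ≤ NN τ i := by exact_mod_cast hrich.le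
        have h3 : (0 : ℝ) ≤ (C * (i : ℝ) ^ 3) * ((ch (NN τ i) (sb s i l)).card : ℝ) := by positivity
        have h4 : (sb s i l) = Ioc (2 ^ i + l * s) (2 ^ i + (l + 1) * s) := rfl
        rw [h4] at h2
        linarith [h2, h3]
    have hsum := Finset.sum_le_sum hterm
    rw [Finset.sum_add_distrib, ← Finset.mul_sum, Finset.sum_const, Nat.card_Ico] at hsum
    have hcr : (k + 1) * r - k * r = r := by
      rw [Nat.add_mul, one_mul, Nat.add_sub_cancel_left]
    rw [hcr, nsmul_eq_mul] at hsum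
    have hP' : (((cell δ i k).filter Nat.Prime).card : ℝ) =
        ∑ l ∈ Ico (k * r) ((k + 1) * r),
          (((Ioc (2 ^ i + l * s) (2 ^ i + (l + 1) * s)).filter Nat.Prime).card : ℝ) := by
      rw [hP]
      push_cast
      rfl
    have hU' : (((cell δ i k).filter (isU τ)).card : ℝ) =
        ∑ l ∈ Ico (k * r) ((k + 1) * r),
          (((Ioc (2 ^ i + l * s) (2 ^ i + (l + 1) * s)).filter (isU τ)).card : ℝ) := by
      rw [hU]
      push_cast
      rfl
    rw [← hP', ← hU'] at hsum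
    have hlt := hk.2
    push_cast at hlt
    have h10 : (r : ℝ) * NN τ i ≤ c / 2 * (hh δ i) / i := by
      have h11 : (r : ℝ) * NN τ i ≤ r * (2 * s / (i : ℝ) ^ 4) := by
        apply mul_le_mul_of_nonneg_left hN2 (by positivity)
      refine le_trans h11 ?_
      have h12 : (r : ℝ) * (2 * s / (i : ℝ) ^ 4) = 2 * hh δ i / (i : ℝ) ^ 4 := by
        rw [hrR]
        ring
      rw [h12, div_le_div_iff₀ (by positivity) hiR]
      have h13 : (i₅ : ℝ) ≤ i := by
        have : i₅ ≤ i := by omega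
        exact_mod_cast this
      have h14 : 4 ≤ c * i := by
        have : 4 / c ≤ i := by linarith
        rw [div_le_iff₀ hc] at this
        linarith
      have h15 : (1 : ℝ) ≤ (i : ℝ) ^ 2 := one_le_pow₀ hi1R
      have h16 : 4 ≤ c * (i : ℝ) ^ 3 := by
        have : c * (i : ℝ) ^ 3 = (c * i) * (i : ℝ) ^ 2 := by ring
        rw [this]
        nlinarith
      have h17 : (0 : ℝ) ≤ (hh δ i : ℝ) * i := by positivity
      have h18 : c / 2 * (hh δ i : ℝ) * (i : ℝ) ^ 4 = (c * (i : ℝ) ^ 3) / 2 * ((hh δ i : ℝ) * i) := by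
        ring
      rw [h18]
      nlinarith
    have h20 : (C * (i : ℝ) ^ 3) * (((cell δ i k).filter (isU τ)).card : ℝ) <
        (C * (i : ℝ) ^ 3) * (c / (2 * C) * hh δ i / (i : ℝ) ^ 4) :=
      mul_lt_mul_of_pos_left hlt (by positivity)
    have h21 : (C * (i : ℝ) ^ 3) * (c / (2 * C) * hh δ i / (i : ℝ) ^ 4) = c / 2 * hh δ i / i := by
      field_simp
    rw [h21] at h20
    have h22 : c * (hh δ i : ℝ) / i = c / 2 * hh δ i / i + c / 2 * hh δ i / i := by ring
    linarith

end Pool.Agent.Helper34.CM
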