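import Pool.Agent.W76.MO.Final
import Pool.Agent.Helper34.CM.UP
import Pool.Agent.Helper34.CM.HB
import Pool.Agent.Helper34.CM.USH
import Pool.Agent.Helper77.CM.ES
import Pool.Agent.Helper32.CM.SP
import Pool.Agent.Helper88.CM.HX
import Pool.Agent.Helper97.CM.Key
import Pool.Agent.Helper31.CM.FST
import Pool.Agent.Helper51.CM.SYS
import Pool.Agent.Helper46.CM.SOL

/-!
# The environment from the hypothesis on primes in short intervals, and the final assembly
-/

set_option autoImplicit false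

namespace Pool.Agent.Helper34.CM

open Finset Filter Topology
open scoped Classical
open Pool.Agent.W76.MO

theorem fewBad : FewBad :=
  Pool.Agent.W475.MO.fb (Pool.Agent.W726.MOBC.main Pool.Agent.W613.MO.za Pool.Agent.W475.MO.gi)
    (Pool.Agent.W815.CL.cellLow Pool.Agent.W761.MO.btr)

theorem hosts : Hosts := Pool.Agent.W544.MO.main Pool.Agent.W761.MO.btr midRange

/-- RH implies the hypothesis -/
theorem few_of_RH (hRH : RiemannHypothesis) : ∃ c : ℝ, 0 < c ∧ ∀ δ : ℝ, 0 < δ → δ < 1 / 4 →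
    FewFor c δ := by
  obtain ⟨c, hc, h⟩ := fewBad hRH
  refine ⟨c, hc, fun δ hδ hδ1 => ?_⟩
  obtain ⟨i₀, hi₀, hi⟩ := h δ δ hδ hδ1 hδ
  refine ⟨i₀, hi₀, fun i hii => (hi i hii).trans (le_of_eq ?_)⟩
  congr 1
  ring

theorem env_exists : ∃ δ₁ : ℝ, 0 < δ₁ ∧ ∀ δ : ℝ, 0 < δ → δ ≤ δ₁ → ∀ c0 : ℝ, 0 < c0 →
    FewFor c0 δ → ∃ E : Env, E.δ = δ ∧ Env.PairB E.τ E.δ := by
  obtain ⟨τ₀, γ₀, c, δ₀, hτ₀, hγ₀, hc, hδ₀, hhost⟩ := hosts
  set τ : ℝ := min (min τ₀ γ₀) (1 / 100) with hτd
  have hτ : 0 < τ := lt_min (lt_min hτ₀ hγ₀) (by norm_num)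
  have hτ1 : τ ≤ 1 / 100 := min_le_right _ _
  refine ⟨min δ₀ (τ / 1000), lt_min hδ₀ (by positivity), fun δ hδ hδmin c0 hc0 hFew => ?_⟩
  have hδ1 : δ ≤ τ / 1000 := hδmin.trans (min_le_right _ _)
  obtain ⟨i₀, hi₀, hhost⟩ := hhost δ hδ (hδmin.trans (min_le_left _ _))
  obtain ⟨isU, CU, cU, i₁, hCU, hcU, hi₁, hup, huu, hub⟩ := usH Pool.Agent.W761.MO.btr τ δ hτ hτ1 hδ hδ1 c0 hc0 hFew
  obtain ⟨CB, hCB, i₂, hi₂, hbtr⟩ := Pool.Agent.W761.MO.btr τ (τ / 4) hτ (by positivity)
  let E : Env :=
    { τ := τ, δ := δ, CU := CU, cU := cU, cH := c, CB := max CB 1, isU := isU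
      i₁ := i₀ + i₁ + i₂
      hτ := hτ, hτ' := hτ1, hδ := hδ, hδ' := hδ1, hCU := hCU, hcU := hcU, hcH := hc
      hCB := le_max_right _ _
      hi₁ := by omega
      u_prime := hup
      u_up := fun i hi => huu i (by omega)
      u_bad := fun i hi => hub i (by omega)
      host := by
        intro i hi k hk
        have hmul := nc_mul δ hδ i
        have hlt : (k + 1) * hh δ i ≤ nc δ i * hh δ i := Nat.mul_le_mul_right _ hk
        have h1 := hhost i (by omega) (2 ^ i + k * hh δ i) (by omega) (by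
          rw [pow_succ]
          have : k * hh δ i ≤ (k + 1) * hh δ i := Nat.mul_le_mul_right _ (Nat.le_succ k)
          omega)
        refine h1.trans ?_
        have hi0 : (0 : ℝ) ≤ i := Nat.cast_nonneg i
        have hsub : (Ioc (2 ^ i + k * hh δ i) (2 ^ i + k * hh δ i + hh δ i)).filter
            (HostNum τ₀ γ₀ i) ⊆ (cell δ i k).filter (HostNum τ τ i) := by
          intro n hn
          rw [mem_filter, mem_Ioc] at hn
          rw [mem_filter]
          refine ⟨?_, ?_⟩
          · unfold cell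
            rw [mem_Ioc]
            have : (k + 1) * hh δ i = k * hh δ i + hh δ i := by ring
            omega
          · obtain ⟨m, q, h1, h2, h3, h4, h5, h6⟩ := hn.2
            refine ⟨m, q, h1, h2, ?_, h4, h5, ?_⟩
            · refine le_trans (Real.rpow_le_rpow_of_exponent_le (by norm_num) ?_) h3
              have : τ ≤ τ₀ := (min_le_left _ _).trans (min_le_left _ _)
              apply mul_le_mul_of_nonneg_right _ hi0
              linarith
            · intro p hp hpm
              refine le_trans (Real.rpow_le_rpow_of_exponent_le (by norm_num) ?_) (h6 p hp hpm)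
              have : τ ≤ γ₀ := (min_le_left _ _).trans (min_le_right _ _)
              exact mul_le_mul_of_nonneg_right this hi0
        exact_mod_cast Finset.card_le_card hsub
      btr := by
        intro i hi a L hL
        refine (hbtr i (by omega) a L hL).trans ?_
        have hi0 : (0 : ℝ) < i := by
          have : 0 < i := by omega
          exact_mod_cast this
        gcongr
        exact le_max_left _ _ }
  exact ⟨E, rfl, Pool.Agent.W1.MO.pb τ δ hτ hτ1 hδ hδ1⟩

end Pool.Agent.Helper34.CM
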