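import Pool.Agent.Helper34.CM.EnvR

/-!
# The theorem with all quantities
-/

set_option autoImplicit false

namespace Pool.Agent.Helper34.CM

open Finset
open scoped Classical
open Pool.Agent.W76.MO
open Pool.Agent.Helper34.CM.SYS51
open Pool.Agent.Helper46.CM (Solm SSm ffm ffm_mul)

theorem sysB (E : Env) (hGB : E.GBounds) (hHC : E.HCount) (hFst : FstM E) (hKey : KeysM E) :
    ∃ (R j : ℕ) (z : ℕ × ℕ → ℝ), Pool.Agent.Helper46.CM.Solm E R j z ∧
      ∀ p : ℕ, p.Prime → 1 + 2 * (p * E.g j p) ≤ (p : ℝ) ^ (9 * E.δ) := by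
  obtain ⟨R₀, hKey⟩ := hKey
  set R := max R₀ 2 with hR
  obtain ⟨J1, hKey⟩ := hKey R (le_max_left _ _)
  obtain ⟨J2, hJ2, hfirst⟩ := hFst R
  obtain ⟨J3, hHC⟩ := hHC
  obtain ⟨J4, hJ4⟩ := ge_of_rpow_ge' E.τ E.hτ R
  obtain ⟨J5, hJ5, hGB⟩ := hGB
  set j := J1 + J2 + J3 + J4 + J5 + R + 10 with hj
  have hKj := hKey j (by omega)
  obtain ⟨hUBne, hUBp, htau1⟩ := hfirst j (by omega)
  obtain ⟨hUB, hu0, hh0, hgu, hgh, hguU, hghq, hsum1, hsum2⟩ := hGB j (by omega)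
  have hHCj := hHC j (by omega)
  have hJ4j : ∀ i, j ≤ i → (R : ℝ) ≤ (2 : ℝ) ^ (E.τ * i) := fun i hi => hJ4 i (by omega)
  have hj10 : 10 ≤ j := by omega
  have hRj : R ≤ 2 ^ (j - 1) := by
    have h1 : R ≤ j - 1 := by omega
    exact h1.trans (Nat.lt_two_pow_self).le
  clear_value j
  have hj1 : 1 ≤ j := by omega
  have hjr : (1 : ℝ) ≤ j := by exact_mod_cast hj1
  have hW : ∀ x, 0 < WW E j x := by
    intro x
    unfold WW
    split_ifs with h1 h2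
    · positivity
    · exact E.w_pos _ (hj1.trans h2.1)
    · norm_num
  have hF0 : ∀ x, |FF E R j 0 x| ≤ WW E j x / 4 := by
    intro x
    unfold FF WW
    split_ifs with h1 h2
    · calc |∑ n ∈ A0m R j, fzm E j 0 n| ≤ ∑ n ∈ A0m R j, |fzm E j 0 n| := abs_sum_le_sum_abs _ _
        _ = ∑ n ∈ A0m R j, 1 / (n : ℝ) := sum_congr rfl fun n hn => fzm_zero E j n hu0 (by
            unfold A0m at hn
            have := (mem_Icc.1 (mem_filter.1 hn).1).1
            omega)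
        _ ≤ ∑ n ∈ Icc (1 : ℕ) (2 ^ j), 1 / (n : ℝ) := by
            apply sum_le_sum_of_subset_of_nonneg (filter_subset _ _)
            intro n _ _
            positivity
        _ ≤ 1 + j := Env.harm_le j
        _ ≤ 8 * j / 4 := by linarith
    · calc |∑ n ∈ csm E R x.1 x.2, fzm E j 0 n| ≤ ∑ n ∈ csm E R x.1 x.2, |fzm E j 0 n| :=
            abs_sum_le_sum_abs _ _
        _ = ∑ n ∈ csm E R x.1 x.2, 1 / (n : ℝ) :=
            sum_congr rfl fun n hn => fzm_zero E j n hu0 (cs_ne_zero E R x.1 x.2 n h2.2 hn)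
        _ ≤ E.w x.1 / 4 := hKj.inv_cell x.1 x.2 h2.1 h2.2
    · simp
  have hFl : ∀ (z z' : ℕ × ℕ → ℝ) (ε : ℝ), (∀ i, |z i| ≤ 1) → (∀ i, |z' i| ≤ 1) →
      (∀ i, |z i - z' i| ≤ ε) → ∀ x,
      |FF E R j z x - FF E R j z' x - WW E j x * (z x - z' x)| ≤ ε * (WW E j x / 4) := by
    intro z z' ε hz hz' hzz x
    have hε : 0 ≤ ε := (abs_nonneg _).trans (hzz (0, 0))
    unfold FF WW
    split_ifs with h1 h2
    · subst h1
      exact first_block E R j hRj hu0 hgh hUBne hUBp htau1 z z' ε hz hz' hzz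
    · exact cell_block E R j x.1 x.2 h2.1 hj1 h2.2 hRj hu0 hh0 hgu hgh
        (fun hb => hHCj x.1 h2.1 x.2 hb) (hJ4j x.1 h2.1) (hKj.tau_cell x.1 x.2 h2.1 h2.2)
        z z' ε hz hz' hzz
    · simp only [one_mul, sub_self, abs_zero]
      positivity
  obtain ⟨z, hz1, hz0⟩ := solve (FF E R j) (WW E j) hW hF0 hFl
  refine ⟨R, j, z, ⟨hz1, le_max_right _ _, hj10, hKj, g_small E j hj10 hgu hguU hghq, ?_, ?_⟩,
    Pool.Agent.W640.MO.factor_le E (by omega) hgu hgh hguU hghq⟩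
  · have h := hz0 (j - 1, 0)
    unfold FF at h
    rwa [if_pos rfl] at h
  · intro i k hi hk
    have h := hz0 (i, k)
    unfold FF at h
    have hne : ¬ ((i, k) : ℕ × ℕ) = (j - 1, 0) := by
      intro h1
      have : i = j - 1 := (Prod.ext_iff.1 h1).1
      omega
    rw [if_neg hne, if_pos ⟨hi, hk⟩] at h
    exact h



theorem fz_le (E : Env) (R j : ℕ) (z : ℕ × ℕ → ℝ) (hu : ∀ p, 0 ≤ E.gu j p)
    (hh0 : ∀ p, 0 ≤ E.gh j p) (hz : ∀ x, |z x| ≤ 1)
    (hf : ∀ p : ℕ, p.Prime → 1 + 2 * (p * E.g j p) ≤ (p : ℝ) ^ (9 * E.δ)) (n : ℕ) (hn : 1 ≤ n) :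
    |ffm E R j z n| ≤ (n : ℝ) ^ (-1 + 9 * E.δ) := by
  unfold Pool.Agent.Helper46.CM.ffm
  split_ifs with hr
  · refine ind_primes (P := fun n => |fzm E j z n| ≤ (n : ℝ) ^ (-1 + 9 * E.δ)) ?_ ?_ n (by omega)
    · unfold fzm
      rw [cmp_one]
      simp
    · intro p m hp hm ih
      unfold fzm at ih ⊢
      rw [cmp_mul _ hp.ne_zero hm, cmp_prime _ hp, abs_mul, Nat.cast_mul,
        Real.mul_rpow (Nat.cast_nonneg p) (Nat.cast_nonneg m)]
      have hp0 : (0 : ℝ) < p := by exact_mod_cast hp.pos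
      have h1 : |gzm E j z p| ≤ 1 * E.g j p := E.gz_le j z 1 hz hu p
      have hg0 : 0 ≤ E.g j p := add_nonneg (hu p) (hh0 p)
      have h2 : |gzm E j z p - 1 / (p : ℝ)| ≤ (p : ℝ) ^ (-1 + 9 * E.δ) := by
        have h3 : (0 : ℝ) ≤ 1 / p := by positivity
        calc |gzm E j z p - 1 / (p : ℝ)| ≤ |gzm E j z p| + |1 / (p : ℝ)| := abs_sub _ _
          _ ≤ E.g j p + 1 / (p : ℝ) := by
              rw [abs_of_nonneg h3]
              linarith
          _ = 1 / (p : ℝ) * (1 + p * E.g j p) := by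
              field_simp
              ring
          _ ≤ 1 / (p : ℝ) * (p : ℝ) ^ (9 * E.δ) := by
              apply mul_le_mul_of_nonneg_left _ h3
              have := hf p hp
              have h4 : 0 ≤ (p : ℝ) * E.g j p := mul_nonneg hp0.le hg0
              linarith
          _ = (p : ℝ) ^ (-1 + 9 * E.δ) := by
              rw [Real.rpow_add hp0, Real.rpow_neg_one, one_div]
      exact mul_le_mul h2 ih (abs_nonneg _) (by positivity)
  · rw [abs_zero]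
    positivity

/-- the conclusion with all quantities -/
theorem conclB (E : Env) (hPB : Env.PairB E.τ E.δ) : ∃ f : ℕ → ℝ, f 1 = 1 ∧
    (∀ m n : ℕ, 1 ≤ m → 1 ≤ n → f (m * n) = f m * f n) ∧
    (∀ n : ℕ, 1 ≤ n → |f n| ≤ (n : ℝ) ^ (-1 + 9 * E.δ)) ∧
    ∃ C : ℝ, 0 < C ∧ ∀ N : ℕ, 1 ≤ N →
      |∑ n ∈ Icc 1 N, f n| ≤ C * (N : ℝ) ^ (-(1 / 2 : ℝ) - E.δ / 2) := by
  have hHC : E.HCount := Pool.Agent.W501.MO.hc E
  have hGB : E.GBounds := Pool.Agent.W683.MO.gb E hHC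
  have hES := Pool.Agent.Helper77.CM.t_ES E hGB
  have hUP := t_UP E hGB hES
  have hSP := SPM.t_SP E hGB
  have hHP := Pool.Agent.Helper88.CM.t_HX E hGB (t_H1 E hHC hGB)
    (Pool.Agent.Helper88.CM.t_HA E hHC hGB hES) (t_HB E hHC hGB hPB)
  have hKey := Pool.Agent.Helper97.CM.t_KEY E hGB hUP hHP hSP
  have hFst := Pool.Agent.Helper31.CM.t_FST E hGB
  obtain ⟨R, j, z, h, hf⟩ := sysB E hGB hHC hFst hKey
  obtain ⟨C, hC, hb⟩ := h.bound
  refine ⟨ffm E R j z, ?_, ?_, fz_le E R j z h.key.u0 h.key.h0 h.z1 hf, C, hC, hb⟩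
  · unfold Pool.Agent.Helper46.CM.ffm fzm
    rw [if_pos, cmp_one]
    intro p hp hd
    exact absurd (Nat.dvd_one.1 hd) hp.one_lt.ne'
  · intro m n hm hn
    exact ffm_mul E R j z m n (by omega) (by omega)

end Pool.Agent.Helper34.CM
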